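import Pool.Agent.R105.CZ.Signs
import Pool.Agent.R105.CZ.Lio

/-!
# The Liouville and the Moebius function along almost every orbit of a `3x+k` map

Let `k` be odd and prime to `3`, and let `T` be the `3x+k` map on the integers. For every modulus `M`,
every `κ < 2 / log (4 / 3)` and every `ε > 0`, all but at most `ε N` of the integers `x ≠ 0` with
`|x| ≤ N` (for `N` large) have the following property: for every `t ≤ κ log |x|`, the sum over `j < t`
of the Liouville function (or the Moebius function) of the terms `T^j x`, with any weights of absolute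
value at most one which depend on `j` and on the residue class of `T^j x` modulo `M`, is at most
`ε log |x|` in absolute value. Since `|T^j x|` is about `|x| (3 / 4) ^ (j / 2)` for almost all `x`,
the range `t ≤ κ log |x|` covers the orbits all the way down to a size `|x| ^ o(1)`. The exceptional
set is the same for all the weights that may be chosen after `N`.
-/

set_option autoImplicit false

namespace Pool.Agent.Results.MP_7f88e4_nt.LiouvilleAlongOrbits

open Pool.Agent.R105.CZ

/-- The `3x+k` map on the integers. -/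
def T (k x : ℤ) : ℤ := if x % 2 = 0 then x / 2 else (3 * x + k) / 2

/-- The Liouville function of `|x|`: one or minus one according to the parity of the number of the
prime factors of `|x|`, counted with multiplicity. -/
def liouville (x : ℤ) : ℤ := (-1) ^ ArithmeticFunction.cardFactors x.natAbs

/-- The Moebius function of `|x|`. -/
def moebius (x : ℤ) : ℤ := ArithmeticFunction.moebius x.natAbs

theorem result (k : ℤ) (hk : Odd k) (h3 : ¬ (3 : ℤ) ∣ k)
    (g : ℤ → ℤ) (hg : g = liouville ∨ g = moebius) (M : ℕ) (hM : 1 ≤ M)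
    (κ ε : ℝ) (hκ : κ < 2 / Real.log (4 / 3)) (hε : 0 < ε) :
    ∃ N₀ : ℕ, ∀ N ≥ N₀, ∀ w : ℕ → ℤ → ℝ, (∀ j x, |w j x| ≤ 1) → (∀ j x, w j (x + M) = w j x) →
      (Set.ncard {x : ℤ | x ≠ 0 ∧ |x| ≤ N ∧ ∃ t : ℕ, (t : ℝ) ≤ κ * Real.log |(x : ℝ)| ∧
        ε * Real.log |(x : ℝ)| < |∑ j ∈ Finset.range t, w j ((T k)^[j] x) * g ((T k)^[j] x)|} : ℝ)
          ≤ ε * N := by
  obtain ⟨κ', hκ0, hκκ, hκ1⟩ := R344.SP.kappa_bridge hκ
  have hodd : k % 2 = 1 := Int.odd_iff.1 hk
  have hT : T k = H499R2.CO.Tz k := by funext x; rfl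
  obtain ⟨G, hGg, hGb, hG⟩ : ∃ G : ℕ → ℤ, (∀ x : ℤ, g x = G x.natAbs) ∧ (∀ n, |G n| ≤ 1) ∧
      ∀ q : ℕ, 0 < q → ∀ a, H426R3.CL.SmallAvg (fun n => if n % q = a % q then G n else 0) := by
    rcases hg with h | h
    · refine ⟨H376R2.MR.lam, fun x => by rw [h]; rfl, H426R3.CL.lam_abs, R344.SP.lam_classes⟩
    · refine ⟨fun n => ArithmeticFunction.moebius n, fun x => by rw [h]; rfl, fun n => ?_,
        R344.SP.mu_classes⟩
      exact ArithmeticFunction.abs_moebius_le_one
  set α := {w : ℕ → ℤ → ℝ // (∀ j x, |w j x| ≤ 1) ∧ ∀ j x, w j (x + M) = w j x} with hα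
  obtain ⟨N₀, hN₀⟩ := both (α := α) hκκ (fun w x t =>
    |∑ j ∈ Finset.range t, w.1 j ((T k)^[j] x) * g ((T k)^[j] x)|) hε (by
      intro s hs
      rcases hs with h | h <;> subst h
      · obtain ⟨N₀, hN₀⟩ := mult_core' hodd (cop_of h3) hκ0 hκ1 hGb hG M hM (ε := ε / 4)
          (by positivity)
        refine ⟨N₀, fun N hN w S hS => hN₀ N hN w.1 w.2.1 w.2.2 S fun n hn => ?_⟩
        obtain ⟨h1, h2, t, ht, hbig⟩ := hS n hn
        refine ⟨h1, h2, t, ht, hbig.trans_eq ?_⟩
        congr 1
        apply Finset.sum_congr rfl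
        intro j _
        rw [hGg, one_mul, hT]
      · obtain ⟨N₀, hN₀⟩ := mult_core' (d := -k) (by omega) (cop_neg (cop_of h3)) hκ0 hκ1 hGb hG M hM
          (ε := ε / 4) (by positivity)
        refine ⟨N₀, fun N hN w S hS => hN₀ N hN (fun j x => w.1 j (-x)) (fun j x => w.2.1 _ _)
          (fun j x => ?_) S fun n hn => ?_⟩
        · have h1 := w.2.2 j (-(x + M))
          rw [← h1]
          ring_nf
        · obtain ⟨h1, h2, t, ht, hbig⟩ := hS n hn
          refine ⟨h1, h2, t, ht, hbig.trans_eq ?_⟩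
          congr 1
          apply Finset.sum_congr rfl
          intro j _
          rw [hGg, neg_one_mul, hT, iter_neg hodd, Int.natAbs_neg])
  exact ⟨N₀, fun N hN w hw hper => hN₀ N hN ⟨w, hw, hper⟩⟩

end Pool.Agent.Results.MP_7f88e4_nt.LiouvilleAlongOrbits
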