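import Pool.Agent.R468.GL.Side
import Pool.Agent.H499R2.LT.CY

/-!
THE LOCAL LIMIT LAW for the entrance of the orbits of the `3x+k` maps into a cycle: for every statistic
`a (number of odd terms) + b (number of steps)` with `a`, `b` coprime, the number of integers up to `x`
for which the statistic takes a given value.

Author: helper468. Uses the local limit theorem for the first hits of a finite set
(Pool/Agent/H499R2/LT) and the thin set estimates (Pool/Agent/R344/TH).
-/

set_option autoImplicit false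

namespace Pool.Agent.Results.MP_7f88e4_nt.LocalLimitLaw

open Filter Topology

/-- the `3x+k` map on the integers -/
def T (k x : ℤ) : ℤ := if x % 2 = 0 then x / 2 else (3 * x + k) / 2

/-- `Z` is a cycle of the `3x+k` map. -/
def IsCycle (k : ℤ) (Z : Finset ℤ) : Prop :=
  ∃ (x : ℤ) (p : ℕ), 1 ≤ p ∧ (T k)^[p] x = x ∧ Z = (Finset.range p).image fun i => (T k)^[i] x

/-- The orbit of `x` enters `Z` after exactly `m` steps. -/
def Enters (k : ℤ) (Z : Finset ℤ) (m : ℕ) (x : ℤ) : Prop :=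
  (T k)^[m] x ∈ Z ∧ ∀ i < m, (T k)^[i] x ∉ Z

/-- the number of odd terms among the first `m` terms of the orbit of `x` -/
def odds (k : ℤ) (m : ℕ) (x : ℤ) : ℕ := ((Finset.range m).filter fun i => (T k)^[i] x % 2 = 1).card

/-- the number of the `n` with `1 ≤ n ≤ x` such that the orbit of `s n` enters `Z`, with
`a (number of odd terms before) + b (number of steps) = j` at the entrance -/
noncomputable def N (k s : ℤ) (Z : Finset ℤ) (a b : ℕ) (x : ℝ) (j : ℕ) : ℕ :=
  {n : ℕ | 1 ≤ n ∧ (n : ℝ) ≤ x ∧ ∃ m : ℕ, Enters k Z m (s * n) ∧ a * odds k m (s * n) + b * m = j}.ncard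

/-- The set of the positive integers with the property `P` has natural density `l`. -/
def HasDensity (P : ℕ → Prop) (l : ℝ) : Prop :=
  Tendsto (fun M : ℕ => (Set.ncard {n : ℕ | 1 ≤ n ∧ n ≤ M ∧ P n} : ℝ) / M) atTop (𝓝 l)

/-- `w = a log 2 + b log 3` -/
noncomputable def w (a b : ℕ) : ℝ := a * Real.log 2 + b * Real.log 3

/-- the constant of the mean value -/
noncomputable def μ (a b : ℕ) : ℝ := (a + 2 * b) / Real.log (4 / 3)

/-- the constant of the variance -/
noncomputable def σ2 (a b : ℕ) : ℝ := 2 * w a b ^ 2 / Real.log (4 / 3) ^ 3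

/-- the value at `j` of the density of the normal distribution of mean `μ log x` and variance
`σ2 log x` -/
noncomputable def g (a b : ℕ) (x : ℝ) (j : ℕ) : ℝ :=
  Real.exp (-(((j : ℝ) - μ a b * Real.log x) ^ 2 / (2 * (σ2 a b * Real.log x)))) /
    Real.sqrt (2 * Real.pi * (σ2 a b * Real.log x))

theorem odds_eq (d : ℤ) (k : ℕ) (x : ℤ) : Pool.Agent.H499R2.LT.od d k x = (odds d k x : ℤ) := by
  induction k with
  | zero => rfl
  | succ k ih =>
    rw [Pool.Agent.H499R2.LT.od_add, ih]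
    unfold odds
    rw [Finset.range_add_one, Finset.filter_insert]
    have h1 : Pool.Agent.H499R2.LT.od d 1 ((T d)^[k] x) = if (T d)^[k] x % 2 = 0 then 0 else 1 := by
      rw [Pool.Agent.H499R2.LT.od, Pool.Agent.H499R2.LT.od, add_zero]
    change _ + Pool.Agent.H499R2.LT.od d 1 ((T d)^[k] x) = _
    rw [h1]
    rcases Int.emod_two_eq_zero_or_one ((T d)^[k] x) with h | h
    · rw [if_pos h, if_neg (by omega)]
      simp
    · rw [if_neg (by omega), if_pos h, Finset.card_insert_of_notMem (by simp)]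
      push_cast
      ring

/-- a cycle other than `{0}` has an element prime to three -/
theorem cyc_three {k : ℤ} (hk2 : k % 2 = 1) (hk : ¬ (3 : ℤ) ∣ k) {Z : Finset ℤ} (hZ : IsCycle k Z) {s : ℤ}
    (h0 : ∀ y ∈ Z, 0 < s * y) : ∃ a ∈ Z, 0 < s * a ∧ ¬ (3 : ℤ) ∣ a := by
  obtain ⟨x, p, hp, hx, rfl⟩ := hZ
  have hmem : ∀ i : ℕ, (T k)^[i] x ∈ (Finset.range p).image fun i => (T k)^[i] x := fun i =>
    Finset.mem_image.2 ⟨i % p, Finset.mem_range.2 (Nat.mod_lt _ hp),
      (Pool.Agent.H499R2.LT.CY.iter_mod hp hx i).symm⟩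
  by_contra hcon
  push Not at hcon
  have h3 : ∀ i : ℕ, (3 : ℤ) ∣ (T k)^[i] x := fun i => hcon _ (hmem i) (h0 _ (hmem i))
  -- all terms are even
  have hev : ∀ i : ℕ, (T k)^[i] x % 2 = 0 := by
    intro i
    have h1 := h3 i
    have h2 := h3 (i + 1)
    rw [Function.iterate_succ_apply'] at h2
    generalize (T k)^[i] x = z at h1 h2
    unfold T at h2
    by_contra h4
    rw [if_neg h4] at h2
    obtain ⟨c, hc⟩ := h1
    obtain ⟨e, he⟩ := h2
    apply hk
    have h5 : (3 * z + k) % 2 = 0 := by omega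
    omega
  -- so the absolute values decrease
  have hdec : ∀ i : ℕ, x = 2 ^ i * (T k)^[i] x := by
    intro i
    induction i with
    | zero => simp
    | succ i ih =>
      have h4 : (T k)^[i] x = 2 * (T k)^[i + 1] x := by
        rw [Function.iterate_succ_apply']
        have h5 := hev i
        generalize (T k)^[i] x = z at h5
        unfold T
        rw [if_pos h5]
        omega
      rw [h4] at ih
      rw [pow_succ]
      linear_combination ih
  have h4 := hdec p
  rw [hx] at h4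
  have h5 : x ≠ 0 := by
    have := h0 _ (hmem 0)
    rintro rfl
    simp at this
  have h6 : (2 : ℤ) ^ p = 1 := by
    have h7 : ((2 : ℤ) ^ p - 1) * x = 0 := by linear_combination -h4
    rcases mul_eq_zero.1 h7 with h | h
    · omega
    · exact absurd h h5
  have h7 : (1 : ℤ) < 2 ^ p := one_lt_pow₀ (by norm_num) (by omega)
  omega

/-- THE LOCAL LIMIT LAW. Let `k ≡ 1` or `5` modulo `6`, `s = 1` or `s = -1`, `Z` a cycle of the
`3x+k` map consisting of integers of the sign of `s`, and let `a`, `b ≥ 0` be integers with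
`a u + b v = 1` for integers `u`, `v`. Write `w = a log 2 + b log 3` and `q = exp (-w)`. There are `δ`
and a function `Ψ` such that

* `δ > 0` is the natural density of the integers of the sign of `s` whose orbit enters `Z`;
* `Ψ` is continuous, has period one, lies between `δ w q / (1 - q)` and `δ w / (1 - q)`, and its mean
  is `δ`;
* `N(x, j) / (x g(x, j)) - Ψ ((log x - j (v log 2 - u log 3)) / w)` tends to zero as `x → ∞`,
  uniformly for the integers `j` with `|j - μ log x| ≤ K √(log x)`, for every `K`. -/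
theorem result (k : ℤ) (hk : k % 6 = 1 ∨ k % 6 = 5) (s : ℤ) (hs : s = 1 ∨ s = -1)
    (Z : Finset ℤ) (hZ : IsCycle k Z) (hsZ : ∀ y ∈ Z, 0 < s * y)
    (a b : ℕ) (u v : ℤ) (huv : (a : ℤ) * u + b * v = 1) :
    ∃ (δ : ℝ) (Ψ : ℝ → ℝ), 0 < δ ∧ HasDensity (fun n => ∃ m : ℕ, (T k)^[m] (s * n) ∈ Z) δ ∧
      Continuous Ψ ∧ (∀ t : ℝ, Ψ (t + 1) = Ψ t) ∧
      (∀ t : ℝ, δ * (w a b * Real.exp (-w a b) / (1 - Real.exp (-w a b))) ≤ Ψ t ∧
        Ψ t ≤ δ * (w a b / (1 - Real.exp (-w a b)))) ∧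
      (∫ t in (0 : ℝ)..1, Ψ t = δ) ∧
      ∀ K ε : ℝ, 0 < ε → ∃ X₀ : ℝ, ∀ x : ℝ, X₀ ≤ x → ∀ j : ℕ,
        |(j : ℝ) - μ a b * Real.log x| ≤ K * Real.sqrt (Real.log x) →
        |(N k s Z a b x j : ℝ) / (x * g a b x j) -
          Ψ ((Real.log x - j * (v * Real.log 2 - u * Real.log 3)) / w a b)| ≤ ε := by
  have hk2 : Odd k := Int.odd_iff.2 (by omega)
  have hk3 : ¬ (3 : ℤ) ∣ k := by omega
  obtain ⟨δ, Ψ, _, hpos, h2, h3, h4, h5, h6, h7, _⟩ :=
    Pool.Agent.R468.GL.main_side ⟨a, b, v, u, huv⟩ hk2 hk3 hs Z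
  refine ⟨δ, Ψ, hpos (cyc_three (by omega) hk3 hZ hsZ), h2, h3, h4, h5, h6, ?_⟩
  intro K ε hε
  obtain ⟨X₀, hX0, hX⟩ := h7 K ε hε
  refine ⟨X₀, fun x hx j hj => ?_⟩
  have h8 := hX x hx (j : ℤ) (by exact_mod_cast hj)
  have e1 : {n : ℕ | (n : ℝ) ≤ x ∧ n ∈ Pool.Agent.R468.GL.Lv ⟨a, b, v, u, huv⟩ k s Z (j : ℤ)} =
      {n : ℕ | 1 ≤ n ∧ (n : ℝ) ≤ x ∧ ∃ m : ℕ, Enters k Z m (s * n) ∧
        a * odds k m (s * n) + b * m = j} := by
    ext n
    unfold Pool.Agent.R468.GL.Lv
    rw [Set.mem_ofPred_eq, Set.mem_ofPred_eq, Set.mem_ofPred_eq]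
    have e2 : ∀ m : ℕ, ((a : ℤ) * Pool.Agent.H499R2.LT.od k m (s * n) + b * m = j) ↔
        a * odds k m (s * n) + b * m = j := by
      intro m
      rw [odds_eq]
      constructor
      · intro h; exact_mod_cast h
      · intro h; exact_mod_cast h
    constructor
    · rintro ⟨g1, g2, m, g3, g4⟩
      exact ⟨g2, g1, m, g3, (e2 m).1 g4⟩
    · rintro ⟨g2, g1, m, g3, g4⟩
      exact ⟨g1, g2, m, g3, (e2 m).2 g4⟩
  rw [e1] at h8
  exact_mod_cast h8

end Pool.Agent.Results.MP_7f88e4_nt.LocalLimitLaw
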