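import Pool.Agent.R105.CZ.Pairs

/-!
# Almost all pairs of orbits of a `3x+k` map are disjoint down to almost bounded values

Let `k` be odd and prime to `3`. For every `B` there is a constant `K` such that for all `Y ≥ 2` and
all `N`, at most `K N ^ 2 / (log Y) ^ B` of the pairs `(x, x')` of integers with `|x|, |x'| ≤ N` have
orbits under the `3x+k` map with a common term which both reach before taking a value of absolute
value smaller than `Y`.

So for any function `f` tending to infinity, the orbits of almost all pairs of integers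
`|x|, |x'| ≤ N` are disjoint until one of them has taken a value smaller than `f N` in absolute value:
the merging of orbits (into a common cycle, if they are eventually periodic) takes place among almost
bounded numbers.
-/

set_option autoImplicit false

namespace Pool.Agent.Results.MP_7f88e4_nt.PairsMeetLow

open Pool.Agent.R105.CZ

/-- The `3x+k` map on the integers. -/
def T (k x : ℤ) : ℤ := if x % 2 = 0 then x / 2 else (3 * x + k) / 2

/-- The orbits of `x` and `x'` have a common term, which both reach before they take a value of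
absolute value smaller than `Y`. -/
def MeetAbove (k : ℤ) (Y : ℝ) (x x' : ℤ) : Prop :=
  ∃ i i' : ℕ, (T k)^[i] x = (T k)^[i'] x' ∧ (∀ j ≤ i, Y ≤ |(((T k)^[j] x : ℤ) : ℝ)|) ∧
    ∀ j ≤ i', Y ≤ |(((T k)^[j] x' : ℤ) : ℝ)|

/-- The number of the pairs of integers `(x, x')` with `|x|, |x'| ≤ N` whose orbits meet above `Y`. -/
noncomputable def pairs (k : ℤ) (Y : ℝ) (N : ℕ) : ℝ :=
  (Set.ncard {p : ℤ × ℤ | |p.1| ≤ N ∧ |p.2| ≤ N ∧ MeetAbove k Y p.1 p.2} : ℝ)

theorem result (k : ℤ) (hk : Odd k) (h3 : ¬ (3 : ℤ) ∣ k) :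
    (∀ B : ℕ, ∃ K : ℝ, ∀ Y : ℝ, 2 ≤ Y → ∀ N : ℕ,
      pairs k Y N ≤ K * (N : ℝ) ^ 2 / (Real.log Y) ^ B) ∧
    (∀ f : ℕ → ℝ, Filter.Tendsto f Filter.atTop Filter.atTop →
      Filter.Tendsto (fun N : ℕ => pairs k (f N) N / (N : ℝ) ^ 2) Filter.atTop (nhds 0)) := by
  have quant := fun B : ℕ => pairs_both hk (cop_of h3) B
  refine ⟨fun B => ?_, fun f hf => ?_⟩
  · obtain ⟨K, _, h⟩ := quant B
    exact ⟨K, h⟩
  obtain ⟨K, hK, h⟩ := quant 1
  have hlim : Filter.Tendsto (fun N : ℕ => K / Real.log (f N)) Filter.atTop (nhds 0) :=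
    Filter.Tendsto.div_atTop tendsto_const_nhds (Real.tendsto_log_atTop.comp hf)
  refine squeeze_zero' (Filter.Eventually.of_forall fun N => ?_) ?_ hlim
  · unfold pairs; positivity
  filter_upwards [hf.eventually_ge_atTop 2, Filter.eventually_ge_atTop 1] with N h1 h2
  have hN : (0 : ℝ) < N := by exact_mod_cast h2
  have h4 := h (f N) h1 N
  rw [pow_one] at h4
  rw [div_le_iff₀ (by positivity)]
  refine le_trans h4 (le_of_eq ?_)
  ring

end Pool.Agent.Results.MP_7f88e4_nt.PairsMeetLow
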