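import Pool.Agent.R344.SP.S
import Pool.Agent.R105.CZ.Signs

/-!
# A property of almost all integers is a property of almost all terms of almost all `3x+k` orbits

Let `k` be odd and prime to `3`, let `T` be the `3x+k` map on the integers and let `A` be any set of
integers of natural density zero (both sides together); nothing else is assumed of `A`. Then for every
`κ < 2 / log (4 / 3)` and every `ε > 0` the set of the integers `x` for which more than `ε log |x|` of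
the terms `T^j x`, `j < κ log |x|`, lie in `A` has natural density zero. Since `|T^j x|` is about
`|x| (3 / 4) ^ (j / 2)` for almost all `x`, the range `j < κ log |x|` covers the orbits all the way down
to a size `|x| ^ o(1)`.

This is deduced from a uniform statement for sets of small density: for all `κ` and `ε` there is
`δ > 0` such that for large `N` and all sequences of sets `A 0, A 1, …`, each with at most `δ X`
elements in `[-X, X]` for all `X ≥ X₀`, all but `ε N` of the integers in `[-N, N]` have at most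
`ε log |x|` terms `T^j x ∈ A j`, `j < κ log |x|`.
-/

set_option autoImplicit false

namespace Pool.Agent.Results.MP_7f88e4_nt.PropertiesOfAlmostAllIntegers

open R344.SP
open Pool.Agent.R105.CZ
open Pool.Agent.H499R2.CO (Tz)

/-- The `3x+k` map on the integers. -/
def T (k x : ℤ) : ℤ := if x % 2 = 0 then x / 2 else (3 * x + k) / 2

/-- The number of nonzero elements of `A` in `[-X, X]`. -/
noncomputable def count (A : Set ℤ) (X : ℝ) : ℝ :=
  (Set.ncard {a : ℤ | a ∈ A ∧ a ≠ 0 ∧ |(a : ℝ)| ≤ X} : ℝ)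

/-- The number of the `j < t` such that the term `T^j x` of the orbit of `x` lies in `A j`. -/
noncomputable def visits (k : ℤ) (A : ℕ → Set ℤ) (x : ℤ) (t : ℕ) : ℝ :=
  (Set.ncard {j : ℕ | j < t ∧ (T k)^[j] x ∈ A j} : ℝ)

theorem visits_eq (k : ℤ) (A : ℕ → Set ℤ) (x : ℤ) (t : ℕ) :
    visits k A x t = Zs k (ind A) 0 t x := by
  classical
  unfold visits Zs
  have h1 : {j : ℕ | j < t ∧ (T k)^[j] x ∈ A j}
      = (((Finset.range t).filter (fun j => (T k)^[j] x ∈ A j) : Finset ℕ) : Set ℕ) := by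
    ext j
    rw [Finset.coe_filter]
    simp only [Finset.mem_range, Set.mem_ofPred_eq]
  rw [h1, Set.ncard_coe_finset, Finset.card_filter]
  push_cast
  apply Finset.sum_congr rfl
  intro j _
  unfold ind
  rw [zero_add]
  rfl

theorem finc (A : Set ℤ) (X : ℝ) : {a : ℤ | a ∈ A ∧ a ≠ 0 ∧ |(a : ℝ)| ≤ X}.Finite := by
  apply (Set.finite_Icc (-⌊X⌋) ⌊X⌋).subset
  rintro x ⟨_, _, hx⟩
  rw [abs_le] at hx
  constructor
  · have h3 : ((-x : ℤ) : ℝ) ≤ X := by push_cast; linarith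
    have := Int.le_floor.2 h3
    omega
  · exact Int.le_floor.2 hx.2

/-- the half lines -/
theorem ct_le {A : Set ℤ} {s : ℤ} (hs : s = 1 ∨ s = -1) {L : ℝ} (hL : 1 ≤ L) :
    ct ((fun a => s * a) ⁻¹' A) L ≤ count A (2 * L) := by
  classical
  unfold ct count
  rw [Set.ncard_eq_toFinset_card _ (finc A (2 * L))]
  have hinj : Function.Injective (fun a : ℤ => s * a) := by
    intro a b hab
    simp only at hab
    rcases hs with h | h <;> subst h <;> omega
  have hsub : ((Wn L).filter (fun n => n ∈ (fun a => s * a) ⁻¹' A)).image (fun a => s * a)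
      ⊆ (finc A (2 * L)).toFinset := by
    intro y hy
    rw [Finset.mem_image] at hy
    obtain ⟨x, hx, rfl⟩ := hy
    rw [Finset.mem_filter, mem_Wn] at hx
    obtain ⟨⟨h2, h3⟩, h4⟩ := hx
    rw [Set.Finite.mem_toFinset]
    have hx0 : (0 : ℝ) < x := by linarith
    have hx0' : 0 < x := by exact_mod_cast hx0
    have habs : |((s * x : ℤ) : ℝ)| = x := by
      rcases hs with h | h <;> subst h
      · rw [one_mul, abs_of_pos hx0]
      · rw [neg_one_mul, Int.cast_neg, abs_neg, abs_of_pos hx0]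
    refine ⟨h4, ?_, ?_⟩
    · rcases hs with h | h <;> subst h <;> omega
    · rw [habs]; exact h3.le
  have h6 := Finset.card_le_card hsub
  rw [Finset.card_image_of_injective _ hinj] at h6
  exact_mod_cast h6

theorem uniform (k : ℤ) (hk : Odd k) (h3 : ¬ (3 : ℤ) ∣ k) (κ ε : ℝ)
    (hκ : κ < 2 / Real.log (4 / 3)) (hε : 0 < ε) :
    ∃ δ : ℝ, 0 < δ ∧ ∀ X₀ : ℝ, ∃ N₀ : ℕ, ∀ N ≥ N₀, ∀ A : ℕ → Set ℤ,
      (∀ j, ∀ X : ℝ, X₀ ≤ X → count (A j) X ≤ δ * X) →
      (Set.ncard {x : ℤ | x ≠ 0 ∧ |x| ≤ N ∧ ∃ t : ℕ, (t : ℝ) ≤ κ * Real.log |(x : ℝ)| ∧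
        ε * Real.log |(x : ℝ)| < visits k A x t} : ℝ) ≤ ε * N := by
  classical
  have hk1 : k % 2 = 1 := Int.odd_iff.1 hk
  have hk1' : (-k) % 2 = 1 := by omega
  obtain ⟨κ', hκ0, hκκ, hκ1⟩ := kappa_bridge hκ
  obtain ⟨δ₁, hδ₁, h₁⟩ := core_sets hk1 (cop_of h3) hκ0 hκ1 (ε := ε / 4) (by positivity)
  obtain ⟨δ₂, hδ₂, h₂⟩ := core_sets hk1' (cop_neg (cop_of h3)) hκ0 hκ1 (ε := ε / 4) (by positivity)
  refine ⟨min δ₁ δ₂ / 2, by positivity, fun X₀ => ?_⟩
  obtain ⟨N₁, hN₁⟩ := h₁ (max X₀ 1)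
  obtain ⟨N₂, hN₂⟩ := h₂ (max X₀ 1)
  have hsmall : ∀ (s : ℤ), (s = 1 ∨ s = -1) → ∀ (δ : ℝ), min δ₁ δ₂ ≤ δ → ∀ A : Set ℤ,
      (∀ X : ℝ, X₀ ≤ X → count A X ≤ min δ₁ δ₂ / 2 * X) → ∀ L : ℝ, max X₀ 1 ≤ L →
      ct ((fun a => s * a) ⁻¹' A) L ≤ δ * L := by
    intro s hs δ hδ A hA L hL
    have hL1 : 1 ≤ L := (le_max_right _ _).trans hL
    have hLX : X₀ ≤ L := (le_max_left _ _).trans hL
    have h1 := hA (2 * L) (by linarith)
    refine (ct_le hs hL1).trans (h1.trans ?_)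
    have : min δ₁ δ₂ * L ≤ δ * L := mul_le_mul_of_nonneg_right hδ (by linarith)
    linarith
  obtain ⟨N₀, hN₀⟩ := both (α := {A : ℕ → Set ℤ // ∀ j, ∀ X : ℝ, X₀ ≤ X →
      count (A j) X ≤ min δ₁ δ₂ / 2 * X}) hκκ (fun A x t => visits k A.1 x t) hε (by
    intro s hs
    rcases hs with rfl | rfl
    · refine ⟨N₁, fun N hN A S hS => hN₁ N hN A.1 ?_ S ?_⟩
      · intro j L hL
        have h1 := hsmall 1 (Or.inl rfl) δ₁ (min_le_left _ _) (A.1 j) (A.2 j) L hL
        have h2 : (fun a : ℤ => 1 * a) ⁻¹' A.1 j = A.1 j := by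
          ext a
          simp
        rwa [h2] at h1
      · intro n hn
        obtain ⟨h1, h2, t, ht, hbig⟩ := hS n hn
        refine ⟨h1, h2, t, ht, hbig.trans_le ?_⟩
        rw [one_mul, visits_eq]
        exact le_abs_self _
    · refine ⟨N₂, fun N hN A S hS => hN₂ N hN (fun j => (fun a => -1 * a) ⁻¹' A.1 j) ?_ S ?_⟩
      · intro j L hL
        exact hsmall (-1) (Or.inr rfl) δ₂ (min_le_right _ _) (A.1 j) (A.2 j) L hL
      · intro n hn
        obtain ⟨h1, h2, t, ht, hbig⟩ := hS n hn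
        refine ⟨h1, h2, t, ht, hbig.trans_le ?_⟩
        rw [visits_eq]
        refine le_trans (le_of_eq ?_) (le_abs_self _)
        unfold Zs
        apply Finset.sum_congr rfl
        intro j _
        unfold ind
        rw [zero_add, neg_one_mul, iter_neg hk1]
        congr 1
        simp)
  exact ⟨N₀, fun N hN A hA => hN₀ N hN ⟨A, hA⟩⟩

/-- Let `k` be odd and prime to `3`.
(1) The uniform statement for sequences of sets of small density.
(2) The statement for a set of density zero. -/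
theorem result (k : ℤ) (hk : Odd k) (h3 : ¬ (3 : ℤ) ∣ k) :
    (∀ κ ε : ℝ, κ < 2 / Real.log (4 / 3) → 0 < ε →
      ∃ δ : ℝ, 0 < δ ∧ ∀ X₀ : ℝ, ∃ N₀ : ℕ, ∀ N ≥ N₀, ∀ A : ℕ → Set ℤ,
        (∀ j, ∀ X : ℝ, X₀ ≤ X → count (A j) X ≤ δ * X) →
        (Set.ncard {x : ℤ | x ≠ 0 ∧ |x| ≤ N ∧ ∃ t : ℕ, (t : ℝ) ≤ κ * Real.log |(x : ℝ)| ∧
          ε * Real.log |(x : ℝ)| < visits k A x t} : ℝ) ≤ ε * N) ∧
    (∀ A : Set ℤ, Filter.Tendsto (fun N : ℕ => count A N / N) Filter.atTop (nhds 0) →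
      ∀ κ ε : ℝ, κ < 2 / Real.log (4 / 3) → 0 < ε →
        Filter.Tendsto (fun N : ℕ => count {x : ℤ | ∃ t : ℕ, (t : ℝ) ≤ κ * Real.log |(x : ℝ)| ∧
          ε * Real.log |(x : ℝ)| < visits k (fun _ => A) x t} N / N) Filter.atTop (nhds 0)) := by
  refine ⟨fun κ ε hκ hε => uniform k hk h3 κ ε hκ hε, ?_⟩
  intro A hA κ ε hκ hε
  rw [Metric.tendsto_atTop]
  intro η hη
  obtain ⟨ε', hε'⟩ : ∃ ε' : ℝ, ε' = min ε (η / 2) := ⟨_, rfl⟩
  have hε'0 : 0 < ε' := by rw [hε']; positivity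
  have hε'1 : ε' ≤ ε := by rw [hε']; exact min_le_left _ _
  have hε'2 : ε' ≤ η / 2 := by rw [hε']; exact min_le_right _ _
  obtain ⟨δ, hδ, hu⟩ := uniform k hk h3 κ ε' hκ hε'0
  -- the density of `A`
  rw [Metric.tendsto_atTop] at hA
  obtain ⟨M₀, hM₀⟩ := hA (δ / 2) (by positivity)
  obtain ⟨N₀, hN₀⟩ := hu ((M₀ : ℝ) + 1)
  refine ⟨max N₀ 1, fun N hN => ?_⟩
  have hN1 : 1 ≤ N := (le_max_right _ _).trans hN
  have hNR : (0 : ℝ) < N := by exact_mod_cast hN1
  have h1 := hN₀ N ((le_max_left _ _).trans hN) (fun _ => A) (by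
    intro j X hX
    have hX0 : 1 ≤ X := by
      have : (0 : ℝ) ≤ M₀ := Nat.cast_nonneg _
      linarith
    obtain ⟨M, hM⟩ : ∃ M : ℕ, M = ⌊X⌋₊ := ⟨_, rfl⟩
    have hM1 : (M : ℝ) ≤ X := by rw [hM]; exact Nat.floor_le (by linarith)
    have hMM : M₀ ≤ M := by
      rw [hM]
      apply Nat.le_floor
      linarith
    have hM1' : 1 ≤ M := by
      rw [hM]; apply Nat.le_floor; simpa using hX0
    have hMR : (0 : ℝ) < M := by exact_mod_cast hM1'
    have h2 := hM₀ M hMM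
    rw [Real.dist_eq, sub_zero] at h2
    have h3 : count A M / M < δ / 2 := (le_abs_self _).trans_lt h2
    rw [div_lt_iff₀ hMR] at h3
    have h4 : count A X = count A M := by
      unfold count
      congr 2
      ext a
      simp only [Set.mem_ofPred_eq]
      constructor
      · rintro ⟨h5, h6, h7⟩
        refine ⟨h5, h6, ?_⟩
        have h8 : ((a.natAbs : ℕ) : ℝ) = |(a : ℝ)| := by
          rw [Nat.cast_natAbs, Int.cast_abs]
        rw [← h8] at h7 ⊢
        have : a.natAbs ≤ M := by rw [hM]; exact Nat.le_floor h7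
        exact_mod_cast this
      · rintro ⟨h5, h6, h7⟩
        exact ⟨h5, h6, h7.trans hM1⟩
    rw [h4]
    have h8 : δ / 2 * M ≤ δ * X := by nlinarith
    linarith)
  rw [Real.dist_eq, sub_zero, abs_of_nonneg (by unfold count; positivity), div_lt_iff₀ hNR]
  have h2 : count {x : ℤ | ∃ t : ℕ, (t : ℝ) ≤ κ * Real.log |(x : ℝ)| ∧
          ε * Real.log |(x : ℝ)| < visits k (fun _ => A) x t} N
      ≤ (Set.ncard {x : ℤ | x ≠ 0 ∧ |x| ≤ N ∧ ∃ t : ℕ, (t : ℝ) ≤ κ * Real.log |(x : ℝ)| ∧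
        ε' * Real.log |(x : ℝ)| < visits k (fun _ => A) x t} : ℝ) := by
    unfold count
    have hfin : {x : ℤ | x ≠ 0 ∧ |x| ≤ N ∧ ∃ t : ℕ, (t : ℝ) ≤ κ * Real.log |(x : ℝ)| ∧
        ε' * Real.log |(x : ℝ)| < visits k (fun _ => A) x t}.Finite := by
      apply (Set.finite_Icc (-(N : ℤ)) N).subset
      rintro x ⟨_, hx, _⟩
      rw [abs_le] at hx
      exact hx
    have hsub : {a : ℤ | a ∈ {x : ℤ | ∃ t : ℕ, (t : ℝ) ≤ κ * Real.log |(x : ℝ)| ∧
          ε * Real.log |(x : ℝ)| < visits k (fun _ => A) x t} ∧ a ≠ 0 ∧ |(a : ℝ)| ≤ (N : ℝ)}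
        ⊆ {x : ℤ | x ≠ 0 ∧ |x| ≤ N ∧ ∃ t : ℕ, (t : ℝ) ≤ κ * Real.log |(x : ℝ)| ∧
        ε' * Real.log |(x : ℝ)| < visits k (fun _ => A) x t} := by
      rintro a ⟨⟨t, ht, hbig⟩, h3, h4⟩
      refine ⟨h3, ?_, t, ht, lt_of_le_of_lt ?_ hbig⟩
      · have : ((|a| : ℤ) : ℝ) ≤ ((N : ℤ) : ℝ) := by rw [Int.cast_abs]; exact_mod_cast h4
        exact_mod_cast this
      · apply mul_le_mul_of_nonneg_right hε'1
        apply Real.log_nonneg
        have : (1 : ℤ) ≤ |a| := Int.one_le_abs h3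
        have h9 : ((1 : ℤ) : ℝ) ≤ ((|a| : ℤ) : ℝ) := by exact_mod_cast this
        rw [Int.cast_abs, Int.cast_one] at h9
        exact h9
    exact_mod_cast Set.ncard_le_ncard hsub hfin
  have h3 : ε' * N ≤ η / 2 * N := mul_le_mul_of_nonneg_right hε'2 hNR.le
  have h4 : 0 < η * N := by positivity
  linarith

end Pool.Agent.Results.MP_7f88e4_nt.PropertiesOfAlmostAllIntegers
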